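import Mathlib

set_option autoImplicit false

open Cardinal

namespace Pool.Agent.W_MP_54b1e5_al

/-- Martin's axiom for `σ`-centered partial orders and `ℵ₁` many dense sets: whenever `P` is a
nonempty partial order which is a countable union of sets `C n` such that every finite subset of
`C n` has a common lower bound in `P`, and `D i` (`i ∈ ι`, `|ι| ≤ ℵ₁`) are dense subsets of `P`,
there is a filter on `P` (a nonempty, upwards closed, downwards directed set) meeting every `D i`.
It follows from `MA + ¬CH`. -/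
def MASigmaCentered : Prop :=
  ∀ (P : Type) [PartialOrder P] [Nonempty P],
    (∃ C : ℕ → Set P, (∀ p, ∃ n, p ∈ C n) ∧
      ∀ n, ∀ s : Finset P, (∀ p ∈ s, p ∈ C n) → ∃ r, ∀ p ∈ s, r ≤ p) →
    ∀ (ι : Type) (D : ι → Set P), #ι ≤ aleph 1 → (∀ i, ∀ p, ∃ q ∈ D i, q ≤ p) →
      ∃ F : Set P, F.Nonempty ∧ (∀ p ∈ F, ∀ q, p ≤ q → q ∈ F) ∧
        (∀ p ∈ F, ∀ q ∈ F, ∃ r ∈ F, r ≤ p ∧ r ≤ q) ∧ ∀ i, ∃ p ∈ F, p ∈ D i

/-- the subgroup of functions with countable support -/
def ctblSupp (I : Type) : AddSubgroup (I → ℤ) where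
  carrier := {f | (Function.support f).Countable}
  zero_mem' := by simp
  add_mem' := fun {f g} hf hg => (hf.union hg).mono (Function.support_add f g)
  neg_mem' := fun {f} hf => by
    simp only [Set.mem_ofPred_eq] at hf ⊢
    rwa [Function.support_neg]

/-- the group of all integer valued functions on `I` modulo those of countable support -/
abbrev G (I : Type) : Type := (I → ℤ) ⧸ ctblSupp I

end Pool.Agent.W_MP_54b1e5_al
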