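import Pool.Agent.W_MP_54b1e5_al.Defs

set_option autoImplicit false

open Cardinal Filter

namespace Pool.Agent.W_MP_54b1e5_al

variable {I : Type}

instance cif : CountableInterFilter (cocountable : Filter I) :=
  CardinalInterFilter.toCountableInterFilter (c := aleph 1) _ (by
    rw [← aleph_zero]; exact aleph_lt_aleph.mpr zero_lt_one)

lemma mk_eq_iff (f g : I → ℤ) :
    (QuotientAddGroup.mk f : G I) = QuotientAddGroup.mk g ↔ ∀ᶠ β in cocountable, f β = g β := by
  rw [QuotientAddGroup.eq]
  change (Function.support (-f + g)).Countable ↔ _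
  rw [Filter.Eventually, mem_cocountable]
  have : Function.support (-f + g) = {x | f x = g x}ᶜ := by
    ext x
    simp only [Function.mem_support, Pi.add_apply, Pi.neg_apply, Set.mem_compl_iff,
      Set.mem_ofPred_eq]
    constructor
    · intro h h'; apply h; rw [h']; ring
    · intro h h'; apply h; linarith
  rw [this]

/-- a representative -/
noncomputable def rep (x : G I) : I → ℤ := Quotient.out x

lemma mk_rep (x : G I) : (QuotientAddGroup.mk (rep x) : G I) = x := Quotient.out_eq x

lemma rep_mk (f : I → ℤ) : ∀ᶠ β in cocountable, rep (QuotientAddGroup.mk f : G I) β = f β := by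
  rw [← mk_eq_iff, mk_rep]

lemma rep_add (x y : G I) : ∀ᶠ β in cocountable, rep (x + y) β = rep x β + rep y β := by
  have h : (QuotientAddGroup.mk (rep (x + y)) : G I) = QuotientAddGroup.mk (rep x + rep y) := by
    rw [mk_rep, QuotientAddGroup.mk_add, mk_rep, mk_rep]
  exact (mk_eq_iff _ _).mp h

lemma rep_sub (x y : G I) : ∀ᶠ β in cocountable, rep (x - y) β = rep x β - rep y β := by
  have h : (QuotientAddGroup.mk (rep (x - y)) : G I) = QuotientAddGroup.mk (rep x - rep y) := by
    rw [mk_rep, QuotientAddGroup.mk_sub, mk_rep, mk_rep]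
  exact (mk_eq_iff _ _).mp h

/-- the indicator of a colour class -/
def ind (κ : I → ℕ) (n : ℕ) : I → ℤ := fun x => if κ x = n then 1 else 0

/-- representative of the image of a colour class -/
noncomputable def w (E : (I → ℤ) →+ G I) (κ : I → ℕ) (n : ℕ) : I → ℤ := rep (E (ind κ n))

lemma step_div (E : (I → ℤ) →+ G I) (κ : I → ℕ) (q : ℕ) (c : ℕ → ℤ)
    (hc : ∀ n, (q : ℤ) ^ n ∣ c n) (N : ℕ) :
    ∀ᶠ β in cocountable, (q : ℤ) ^ N ∣ rep (E (c ∘ κ)) β -
      ∑ n ∈ Finset.range N, c n * w E κ n β := by
  set c' : ℕ → ℤ := fun n => if n < N then 0 else c n / (q : ℤ) ^ N with hc'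
  have h1 : c ∘ κ = (∑ n ∈ Finset.range N, c n • ind κ n) + (q : ℤ) ^ N • (c' ∘ κ) := by
    funext x
    simp only [Function.comp_apply, Pi.add_apply, Finset.sum_apply, Pi.smul_apply, ind,
      smul_eq_mul, mul_ite, mul_one, mul_zero, Finset.sum_ite_eq, Finset.mem_range, hc']
    by_cases h : κ x < N
    · simp [h]
    · simp only [h, if_false, zero_add]
      rw [Int.mul_ediv_cancel']
      exact (pow_dvd_pow _ (not_lt.mp h)).trans (hc _)
  have h2 : (QuotientAddGroup.mk (rep (E (c ∘ κ))) : G I) =
      QuotientAddGroup.mk ((∑ n ∈ Finset.range N, c n • w E κ n) +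
        (q : ℤ) ^ N • rep (E (c' ∘ κ))) := by
    rw [mk_rep, h1, map_add, map_sum, map_zsmul, QuotientAddGroup.mk_add, QuotientAddGroup.mk_sum,
      QuotientAddGroup.mk_zsmul, mk_rep]
    congr 1
    apply Finset.sum_congr rfl
    intro n _
    rw [map_zsmul, QuotientAddGroup.mk_zsmul, w, mk_rep]
  rw [mk_eq_iff] at h2
  filter_upwards [h2] with β hβ
  rw [hβ]
  simp only [Pi.add_apply, Finset.sum_apply, Pi.smul_apply, smul_eq_mul]
  rw [add_sub_cancel_left]
  exact dvd_mul_right _ _

lemma eq_zero_of_pow_dvd {q : ℕ} (hq : 2 ≤ q) {a : ℤ} {N₀ : ℕ}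
    (h : ∀ N, N₀ ≤ N → (q : ℤ) ^ N ∣ a) : a = 0 := by
  set N := max N₀ (a.natAbs) with hN
  have h1 := h N (le_max_left _ _)
  apply Int.eq_zero_of_abs_lt_dvd h1
  have h2 : a.natAbs < q ^ N := by
    calc a.natAbs ≤ N := le_max_right _ _
      _ < q ^ N := Nat.lt_pow_self (by omega)
  rw [Int.abs_eq_natAbs]
  exact_mod_cast h2

lemma step2_q (E : (I → ℤ) →+ G I) (κ : I → ℕ) {q : ℕ} (hq : 2 ≤ q) (c : ℕ → ℤ)
    (hc : ∀ n, (q : ℤ) ^ n ∣ c n) (hfin : ∀ᶠ β in cocountable, {n | w E κ n β ≠ 0}.Finite) :
    ∀ᶠ β in cocountable, rep (E (c ∘ κ)) β = ∑ᶠ n, c n * w E κ n β := by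
  have h1 := eventually_countable_forall.mpr (step_div E κ q c hc)
  filter_upwards [h1, hfin] with β hβ hf
  obtain ⟨N₀, hN₀⟩ := hf.bddAbove
  have h2 : ∀ N, N₀ + 1 ≤ N → ∑ᶠ n, c n * w E κ n β = ∑ n ∈ Finset.range N, c n * w E κ n β := by
    intro N hN
    apply finsum_eq_sum_of_support_subset
    intro n hn
    have h3 : w E κ n β ≠ 0 := fun h => hn (by simp [h])
    have h4 : n ≤ N₀ := hN₀ h3
    simp only [Finset.coe_range, Set.mem_Iio]
    omega
  have h3 : rep (E (c ∘ κ)) β - ∑ᶠ n, c n * w E κ n β = 0 := by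
    apply eq_zero_of_pow_dvd hq (N₀ := N₀ + 1)
    intro N hN
    rw [h2 N hN]
    exact hβ N
  linarith

/-! ### generic sequences -/

/-- finite sequences ordered by reverse extension -/
structure LP where
  /-- the list -/
  l : List ℤ

instance : PartialOrder LP where
  le p q := q.l <+: p.l
  le_refl p := List.prefix_rfl
  le_trans p q r h1 h2 := h2.trans h1
  le_antisymm p q h1 h2 := by
    have : p.l = q.l := by
      apply List.IsPrefix.eq_of_length h2
      exact le_antisymm h2.length_le h1.length_le
    cases p; cases q; simp_all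

instance : Nonempty LP := ⟨⟨[]⟩⟩

lemma generic_seq (hMA : MASigmaCentered) {ι : Type} (hι : #ι ≤ aleph 1) (D : ι → Set (List ℤ))
    (hD : ∀ i, ∀ l, ∃ l' ∈ D i, l <+: l') :
    ∃ d : ℕ → ℤ, ∀ i, ∃ l ∈ D i, ∀ k (h : k < l.length), l[k] = d k := by
  classical
  obtain ⟨F, -, -, hdir, hmeet⟩ := hMA LP ⟨fun n => {p | Encodable.encode p.l = n},
    fun p => ⟨_, rfl⟩, fun n s hs => by
      rcases s.eq_empty_or_nonempty with h | ⟨p, hp⟩
      · exact ⟨⟨[]⟩, fun p hp => by simp [h] at hp⟩
      · refine ⟨p, fun q hq => ?_⟩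
        have h1 : Encodable.encode p.l = n := hs p hp
        have h2 : Encodable.encode q.l = n := hs q hq
        have h3 : q.l = p.l := Encodable.encode_injective (h2.trans h1.symm)
        change q.l <+: p.l
        rw [h3]⟩
    (ι ⊕ ℕ) (fun i => match i with
      | Sum.inl i => {p | p.l ∈ D i}
      | Sum.inr n => {p | n < p.l.length})
    (by
      rw [mk_sum, lift_id, lift_id, mk_nat]
      exact (add_le_add hι (aleph0_le_aleph 1)).trans (by
        rw [add_eq_self (aleph0_le_aleph 1)]))
    (by
      rintro (i | n) p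
      · obtain ⟨l', h1, h2⟩ := hD i p.l
        exact ⟨⟨l'⟩, h1, h2⟩
      · refine ⟨⟨p.l ++ List.replicate (n + 1) 0⟩, ?_, List.prefix_append _ _⟩
        change n < (p.l ++ List.replicate (n + 1) 0).length
        simp; omega)
  choose P hP using fun n : ℕ => hmeet (Sum.inr n)
  have hlen : ∀ n, n < (P n).l.length := fun n => (hP n).2
  refine ⟨fun n => (P n).l[n]'(hlen n), fun i => ?_⟩
  obtain ⟨p, hpF, hpD⟩ := hmeet (Sum.inl i)
  refine ⟨p.l, hpD, fun k hk => ?_⟩
  obtain ⟨r, -, hr1, hr2⟩ := hdir p hpF (P k) (hP k).1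
  have h1 := List.IsPrefix.getElem hr1 hk
  have h2 := List.IsPrefix.getElem hr2 (hlen k)
  rw [h1]; exact h2.symm

/-- row finiteness -/
theorem step1 (hMA : MASigmaCentered) (hI : #I ≤ aleph 1) (E : (I → ℤ) →+ G I) (κ : I → ℕ) :
    ∀ᶠ β in cocountable, {n | w E κ n β ≠ 0}.Finite := by
  by_contra hcon
  set B : Set I := {β | ¬ {n | w E κ n β ≠ 0}.Finite} with hB
  have hBc : ¬ B.Countable := by
    intro h
    apply hcon
    rw [Filter.Eventually, mem_cocountable]
    exact h
  obtain ⟨d, hd⟩ := generic_seq hMA (ι := B × ℤ) (by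
      rw [mk_prod, lift_id, lift_id, mk_int]
      have h1 : #B ≤ aleph 1 := (mk_set_le B).trans hI
      calc #B * ℵ₀ ≤ aleph 1 * ℵ₀ := by gcongr
        _ = aleph 1 := by
          rw [mul_aleph0_eq (aleph0_le_aleph 1)])
    (fun i => {l | ¬ ((2 : ℤ) ^ l.length ∣
      i.2 - ∑ k ∈ Finset.range l.length, 2 ^ k * l.getD k 0 * w E κ k i.1)})
    (by
      rintro ⟨⟨β, hβ⟩, z⟩ l
      have hinf : {n | w E κ n β ≠ 0}.Infinite := hβ
      obtain ⟨n, hn1, hn2⟩ := hinf.exists_gt l.length
      -- two candidates
      set a : ℤ := ∑ k ∈ Finset.range l.length, 2 ^ k * l.getD k 0 * w E κ k β with ha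
      -- general extension
      have key : ∀ t : ℤ, z ≠ a + 2 ^ n * t * w E κ n β →
          ∃ l' : List ℤ, ¬ ((2 : ℤ) ^ l'.length ∣
            z - ∑ k ∈ Finset.range l'.length, 2 ^ k * l'.getD k 0 * w E κ k β) ∧ l <+: l' := by
        intro t ht
        set b : ℤ := a + 2 ^ n * t * w E κ n β with hb
        set M := (z - b).natAbs with hM
        refine ⟨l ++ (List.replicate (n - l.length) 0 ++ t :: List.replicate M 0), ?_,
          List.prefix_append _ _⟩
        have hlen : (l ++ (List.replicate (n - l.length) 0 ++ t :: List.replicate M 0)).length =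
            n + 1 + M := by
          simp only [List.length_append, List.length_replicate, List.length_cons]; omega
        rw [hlen]
        have hsum : ∑ k ∈ Finset.range (n + 1 + M), 2 ^ k *
            (l ++ (List.replicate (n - l.length) 0 ++ t :: List.replicate M 0)).getD k 0 *
              w E κ k β = b := by
          have hget : ∀ k, (l ++ (List.replicate (n - l.length) 0 ++ t ::
              List.replicate M 0)).getD k 0 =
              if k < l.length then l.getD k 0 else if k = n then t else 0 := by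
            intro k
            by_cases h1 : k < l.length
            · rw [if_pos h1, List.getD_append _ _ _ _ h1]
            · rw [if_neg h1, List.getD_append_right _ _ _ _ (not_lt.mp h1)]
              by_cases h2 : k < n
              · rw [List.getD_append _ _ _ _ (by rw [List.length_replicate]; omega)]
                rw [if_neg (by omega)]
                simp
              · rw [List.getD_append_right _ _ _ _ (by rw [List.length_replicate]; omega),
                  List.length_replicate]
                by_cases h3 : k = n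
                · rw [if_pos h3]
                  have : k - l.length - (n - l.length) = 0 := by omega
                  rw [this]; simp
                · rw [if_neg h3]
                  obtain ⟨j, hj⟩ : ∃ j, k - l.length - (n - l.length) = j + 1 :=
                    ⟨k - l.length - (n - l.length) - 1, by omega⟩
                  rw [hj]; simp
          simp_rw [hget]
          have hsplit : ∀ k ∈ Finset.range (n + 1 + M), 2 ^ k *
              (if k < l.length then l.getD k 0 else if k = n then t else 0) * w E κ k β =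
              (if k < l.length then 2 ^ k * l.getD k 0 * w E κ k β else 0) +
              (if k = n then 2 ^ k * t * w E κ k β else 0) := by
            intro k _
            by_cases h1 : k < l.length
            · have h2 : k ≠ n := by omega
              simp [h1, h2]
            · by_cases h2 : k = n
              · subst h2; simp [h1]
              · simp [h1, h2]
          rw [Finset.sum_congr rfl hsplit, Finset.sum_add_distrib]
          congr 1
          · rw [← Finset.sum_filter, ha]
            apply Finset.sum_congr _ (fun _ _ => rfl)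
            ext k; simp; omega
          · rw [Finset.sum_ite_eq' , if_pos (by simp; omega)]
        rw [hsum]
        intro hdvd
        have h0 : z - b = 0 := by
          apply Int.eq_zero_of_abs_lt_dvd hdvd
          have h2 : (z - b).natAbs < 2 ^ (n + 1 + M) := by
            calc (z - b).natAbs = M := rfl
              _ ≤ n + 1 + M := by omega
              _ < 2 ^ (n + 1 + M) := Nat.lt_pow_self (by omega)
          rw [Int.abs_eq_natAbs]
          exact_mod_cast h2
        exact ht (by linarith)
      by_cases hz : z = a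
      · have hne : z ≠ a + 2 ^ n * 1 * w E κ n β := by
          intro h
          have h1 : (2 : ℤ) ^ n * 1 * w E κ n β = 0 := by linarith
          have h2 : w E κ n β = 0 := by
            rcases mul_eq_zero.mp h1 with h | h
            · simp at h
            · exact h
          exact hn1 h2
        obtain ⟨l', h1, h2⟩ := key 1 hne
        exact ⟨l', h1, h2⟩
      · obtain ⟨l', h1, h2⟩ := key 0 (by simpa using hz)
        exact ⟨l', h1, h2⟩)
  set c : ℕ → ℤ := fun n => 2 ^ n * d n with hc
  have h1 := eventually_countable_forall.mpr (step_div E κ 2 c (fun n => dvd_mul_right _ _))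
  have h2 : ∃ β ∈ B, ∀ N, ((2 : ℕ) : ℤ) ^ N ∣ rep (E (c ∘ κ)) β -
      ∑ n ∈ Finset.range N, c n * w E κ n β := by
    by_contra hno
    push Not at hno
    apply hBc
    rw [Filter.Eventually, mem_cocountable] at h1
    apply h1.mono
    intro β hβ h
    obtain ⟨N, hN⟩ := hno β hβ
    exact hN (h N)
  obtain ⟨β, hβ, hβ2⟩ := h2
  obtain ⟨l, hl1, hl2⟩ := hd ⟨⟨β, hβ⟩, rep (E (c ∘ κ)) β⟩
  apply hl1
  have h3 := hβ2 l.length
  have h4 : ∑ n ∈ Finset.range l.length, c n * w E κ n β =
      ∑ k ∈ Finset.range l.length, 2 ^ k * l.getD k 0 * w E κ k β := by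
    apply Finset.sum_congr rfl
    intro k hk
    rw [Finset.mem_range] at hk
    rw [hc, List.getD_eq_getElem _ _ hk, hl2 k hk]
  rw [h4] at h3
  exact_mod_cast h3

/-- every homomorphism is row finite on colour classes -/
theorem step2 (hMA : MASigmaCentered) (hI : #I ≤ aleph 1) (E : (I → ℤ) →+ G I) (κ : I → ℕ)
    (c : ℕ → ℤ) : ∀ᶠ β in cocountable, rep (E (c ∘ κ)) β = ∑ᶠ n, c n * w E κ n β := by
  have hfin := step1 hMA hI E κ
  have hbez : ∀ n : ℕ, ∃ a b : ℤ, (2 : ℤ) ^ n * a + 3 ^ n * b = c n := by
    intro n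
    have hcop : IsCoprime ((2 : ℤ) ^ n) (3 ^ n) := by
      apply IsCoprime.pow
      exact ⟨-1, 1, by norm_num⟩
    obtain ⟨u, v, huv⟩ := hcop
    refine ⟨u * c n, v * c n, ?_⟩
    linear_combination c n * huv
  choose a b hab using hbez
  set c1 : ℕ → ℤ := fun n => 2 ^ n * a n with hc1
  set c2 : ℕ → ℤ := fun n => 3 ^ n * b n with hc2
  have h1 := step2_q E κ (q := 2) (by norm_num) c1 (fun n => dvd_mul_right _ _) hfin
  have h2 := step2_q E κ (q := 3) (by norm_num) c2 (fun n => dvd_mul_right _ _) hfin
  have h3 : c ∘ κ = c1 ∘ κ + c2 ∘ κ := by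
    funext x
    simp only [Function.comp_apply, Pi.add_apply, hc1, hc2]
    exact (hab _).symm
  have h4 := rep_add (E (c1 ∘ κ)) (E (c2 ∘ κ))
  rw [← map_add, ← h3] at h4
  filter_upwards [h1, h2, h4, hfin] with β e1 e2 e4 hf
  rw [e4, e1, e2, ← finsum_add_distrib]
  · apply finsum_congr
    intro n
    rw [← hab n]; simp only [hc1, hc2]; ring
  · apply hf.subset
    intro n hn h; apply hn; simp [h]
  · apply hf.subset
    intro n hn h; apply hn; simp [h]

end Pool.Agent.W_MP_54b1e5_al
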