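import Pool.Agent.W_MP_54b1e5_al.StepA

set_option autoImplicit false

open Cardinal Filter TopologicalSpace

namespace Pool.Agent.W_MP_54b1e5_al

/-- the Cantor space -/
abbrev Cantor : Type := ℕ → Bool

/-- its clopen subsets -/
abbrev K : Type := Clopens Cantor

instance : Countable K :=
  TopologicalSpace.Clopens.countable_iff_secondCountable.mpr inferInstance

/-- conditions: finitely many coloured clopen sets (those of the same colour being disjoint) and
finitely many coloured points of `Z`, which lie in none of the sets of their colour -/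
structure Cond (Z : Set Cantor) where
  /-- the coloured clopen sets -/
  s : Finset (ℕ × K)
  /-- the coloured points -/
  H : Finset (ℕ × Cantor)
  hH : ∀ p ∈ H, p.2 ∈ Z
  disj : ∀ k V V', (k, V) ∈ s → (k, V') ∈ s → V ≠ V' → Disjoint (V : Set Cantor) (V' : Set Cantor)
  avoid : ∀ k V y, (k, V) ∈ s → (k, y) ∈ H → y ∉ V

instance (Z : Set Cantor) : PartialOrder (Cond Z) where
  le p q := q.s ⊆ p.s ∧ q.H ⊆ p.H
  le_refl p := ⟨subset_rfl, subset_rfl⟩
  le_trans p q r h1 h2 := ⟨h2.1.trans h1.1, h2.2.trans h1.2⟩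
  le_antisymm p q h1 h2 := by
    have e1 : p.s = q.s := Finset.Subset.antisymm h2.1 h1.1
    have e2 : p.H = q.H := Finset.Subset.antisymm h2.2 h1.2
    cases p; cases q; simp_all

instance (Z : Set Cantor) : Nonempty (Cond Z) :=
  ⟨⟨∅, ∅, by simp, by simp, by simp⟩⟩

theorem generic_clopen (hMA : MASigmaCentered) (Z : Set Cantor) (hZ : #Z ≤ aleph 1)
    {ρ : Type} (hρ : #ρ ≤ aleph 1) (y : ρ → Cantor) (P : ρ → K → Prop)
    (hP : ∀ r, ∀ W : K, y r ∈ W → ∃ V : K, V ≤ W ∧ P r V ∧ (y r ∈ Z → y r ∉ V)) :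
    ∃ 𝒱 : ℕ → Set K,
      (∀ k, ∀ V ∈ 𝒱 k, ∀ V' ∈ 𝒱 k, V ≠ V' → Disjoint (V : Set Cantor) (V' : Set Cantor)) ∧
      (∀ z ∈ Z, ∃ k, ∀ V ∈ 𝒱 k, z ∉ V) ∧
      (∀ r k, (∃ V ∈ 𝒱 k, y r ∈ V) ∨ ∃ V ∈ 𝒱 k, P r V) := by
  classical
  obtain ⟨enc, henc⟩ := exists_injective_nat (Finset (ℕ × K))
  obtain ⟨F, hFne, hup, hdir, hmeet⟩ := hMA (Cond Z) ⟨fun n => {p | enc p.s = n},
    fun p => ⟨_, rfl⟩, fun n S hS => by
      rcases S.eq_empty_or_nonempty with h | ⟨p, hp⟩
      · exact ⟨⟨∅, ∅, by simp, by simp, by simp⟩, fun p hp => by simp [h] at hp⟩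
      · have hs : ∀ q ∈ S, q.s = p.s := fun q hq =>
          henc ((show enc q.s = n from hS q hq).trans (show enc p.s = n from hS p hp).symm)
        refine ⟨⟨p.s, S.biUnion (fun q => q.H), ?_, p.disj, ?_⟩, fun q hq => ⟨?_, ?_⟩⟩
        · intro a ha
          rw [Finset.mem_biUnion] at ha
          obtain ⟨q, hq, ha⟩ := ha
          exact q.hH a ha
        · intro k V z hV hz
          rw [Finset.mem_biUnion] at hz
          obtain ⟨q, hq, hz⟩ := hz
          exact q.avoid k V z (by rw [hs q hq]; exact hV) hz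
        · change q.s ⊆ p.s
          rw [hs q hq]
        · change q.H ⊆ S.biUnion (fun q => q.H)
          exact Finset.subset_biUnion_of_mem (fun q : Cond Z => q.H) hq⟩
    (Z ⊕ (ρ × ℕ)) (fun i => match i with
      | Sum.inl z => {p | ∃ k, (k, (z : Cantor)) ∈ p.H}
      | Sum.inr (r, k) => {p | (∃ V, (k, V) ∈ p.s ∧ y r ∈ V) ∨ ∃ V, (k, V) ∈ p.s ∧ P r V})
    (by
      rw [mk_sum, lift_id, lift_id, mk_prod, lift_id, lift_id, mk_nat]
      have h1 : #ρ * ℵ₀ ≤ aleph 1 := by
        calc #ρ * ℵ₀ ≤ aleph 1 * ℵ₀ := by gcongr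
          _ = aleph 1 := by rw [mul_aleph0_eq (aleph0_le_aleph 1)]
      exact (add_le_add hZ h1).trans (by rw [add_eq_self (aleph0_le_aleph 1)]))
    (by
      rintro (z | ⟨r, k⟩) p
      · -- a fresh colour
        obtain ⟨k, hk⟩ := Infinite.exists_notMem_finset (p.s.image Prod.fst)
        refine ⟨⟨p.s, insert (k, (z : Cantor)) p.H, ?_, p.disj, ?_⟩, ⟨k, ?_⟩, subset_rfl, ?_⟩
        · intro a ha
          rw [Finset.mem_insert] at ha
          rcases ha with rfl | ha
          · exact z.2
          · exact p.hH a ha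
        · intro k' V z' hV hz'
          rw [Finset.mem_insert] at hz'
          rcases hz' with h | h
          · exfalso
            have : k' = k := (Prod.mk.inj h).1
            subst this
            exact hk (Finset.mem_image.mpr ⟨_, hV, rfl⟩)
          · exact p.avoid k' V z' hV h
        · exact Finset.mem_insert_self _ _
        · exact Finset.subset_insert _ _
      · by_cases hy : ∃ V, (k, V) ∈ p.s ∧ y r ∈ V
        · exact ⟨p, Or.inl hy, le_rfl⟩
        · -- a small neighbourhood
          set U : Set Cantor := (⋃ a ∈ p.s.filter (fun a => a.1 = k), (a.2 : Set Cantor))ᶜ ∩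
            (((p.H.image Prod.snd).erase (y r) : Finset Cantor) : Set Cantor)ᶜ with hU
          have hUo : IsOpen U := by
            apply IsOpen.inter
            · rw [isOpen_compl_iff]
              apply Set.Finite.isClosed_biUnion (Finset.finite_toSet _)
              intro a _
              exact a.2.isClopen.1
            · rw [isOpen_compl_iff]
              exact (Finset.finite_toSet _).isClosed
          have hyU : y r ∈ U := by
            refine ⟨?_, ?_⟩
            · intro h
              rw [Set.mem_iUnion₂] at h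
              obtain ⟨⟨k', V⟩, ha, h⟩ := h
              rw [Finset.mem_filter] at ha
              obtain ⟨ha, rfl⟩ := ha
              exact hy ⟨V, ha, h⟩
            · simp
          obtain ⟨W, hWc, hyW, hWU⟩ := compact_exists_isClopen_in_isOpen hUo hyU
          obtain ⟨V, hVW, hPV, hVy⟩ := hP r ⟨W, hWc⟩ hyW
          have hVU : (V : Set Cantor) ⊆ U := fun a ha => hWU (hVW ha)
          refine ⟨⟨insert (k, V) p.s, p.H, p.hH, ?_, ?_⟩, Or.inr ⟨V, Finset.mem_insert_self _ _, hPV⟩,
            Finset.subset_insert _ _, subset_rfl⟩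
          · have hd : ∀ V', (k, V') ∈ p.s → Disjoint (V : Set Cantor) (V' : Set Cantor) := by
              intro V' hV'
              rw [Set.disjoint_left]
              intro a ha ha'
              apply (hVU ha).1
              rw [Set.mem_iUnion₂]
              exact ⟨(k, V'), Finset.mem_filter.mpr ⟨hV', rfl⟩, ha'⟩
            intro k' V1 V2 h1 h2 hne
            rw [Finset.mem_insert] at h1 h2
            rcases h1 with h1 | h1
            · obtain ⟨rfl, rfl⟩ := Prod.mk.inj h1
              rcases h2 with h2 | h2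
              · obtain ⟨-, rfl⟩ := Prod.mk.inj h2
                exact absurd rfl hne
              · exact hd V2 h2
            · rcases h2 with h2 | h2
              · obtain ⟨rfl, rfl⟩ := Prod.mk.inj h2
                exact (hd V1 h1).symm
              · exact p.disj k' V1 V2 h1 h2 hne
          · intro k' V' z hV' hz hzV
            rw [Finset.mem_insert] at hV'
            rcases hV' with h | h
            · obtain ⟨rfl, rfl⟩ := Prod.mk.inj h
              by_cases hzy : z = y r
              · subst hzy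
                exact hVy (p.hH _ hz) hzV
              · apply (hVU hzV).2
                rw [Finset.mem_coe, Finset.mem_erase]
                exact ⟨hzy, Finset.mem_image.mpr ⟨_, hz, rfl⟩⟩
            · exact p.avoid k' V' z h hz hzV)
  refine ⟨fun k => {V | ∃ p ∈ F, (k, V) ∈ p.s}, ?_, ?_, ?_⟩
  · rintro k V ⟨p, hp, hV⟩ V' ⟨q, hq, hV'⟩ hne
    obtain ⟨r, -, hr1, hr2⟩ := hdir p hp q hq
    exact r.disj k V V' (hr1.1 hV) (hr2.1 hV') hne
  · intro z hz
    obtain ⟨p, hpF, k, hk⟩ := hmeet (Sum.inl ⟨z, hz⟩)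
    refine ⟨k, ?_⟩
    rintro V ⟨q, hq, hV⟩
    obtain ⟨r, -, hr1, hr2⟩ := hdir p hpF q hq
    exact r.avoid k V z (hr2.1 hV) (hr1.2 hk)
  · intro r k
    obtain ⟨p, hpF, h⟩ := hmeet (Sum.inr (r, k))
    rcases h with ⟨V, h1, h2⟩ | ⟨V, h1, h2⟩
    · exact Or.inl ⟨V, ⟨p, hpF, h1⟩, h2⟩
    · exact Or.inr ⟨V, ⟨p, hpF, h1⟩, h2⟩

end Pool.Agent.W_MP_54b1e5_al
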