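import Pool.Agent.W_MP_54b1e5_al.StepB

set_option autoImplicit false

open Cardinal Filter TopologicalSpace

namespace Pool.Agent.W_MP_54b1e5_al

/-! ### pairing finitely supported functions with arbitrary functions -/

/-- the pairing of a finitely supported function with a function -/
noncomputable def pair {α : Type} (m : α →₀ ℤ) (g : α → ℤ) : ℤ := m.sum fun y a => a * g y

section pair
variable {α : Type}

lemma pair_eq_sum (m : α →₀ ℤ) (g : α → ℤ) {F : Finset α} (hF : m.support ⊆ F) :
    pair m g = ∑ y ∈ F, m y * g y := by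
  unfold pair Finsupp.sum
  apply Finset.sum_subset hF
  intro x _ hx
  rw [Finsupp.notMem_support_iff] at hx
  change m x * g x = 0
  rw [hx, zero_mul]

lemma pair_congr (m : α →₀ ℤ) {g g' : α → ℤ} (h : ∀ y ∈ m.support, g y = g' y) :
    pair m g = pair m g' := by
  unfold pair Finsupp.sum
  apply Finset.sum_congr rfl
  intro x hx
  change m x * g x = m x * g' x
  rw [h x hx]

lemma pair_zero_left (g : α → ℤ) : pair (0 : α →₀ ℤ) g = 0 := by
  simp [pair]

lemma pair_add_left (m m' : α →₀ ℤ) (g : α → ℤ) : pair (m + m') g = pair m g + pair m' g := by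
  unfold pair
  apply Finsupp.sum_add_index'
  · intro a; simp
  · intro a b c; ring

lemma pair_single (a : α) (n : ℤ) (g : α → ℤ) : pair (Finsupp.single a n) g = n * g a := by
  unfold pair
  rw [Finsupp.sum_single_index]
  simp

lemma pair_add_right (m : α →₀ ℤ) (g g' : α → ℤ) : pair m (g + g') = pair m g + pair m g' := by
  unfold pair Finsupp.sum
  rw [← Finset.sum_add_distrib]
  apply Finset.sum_congr rfl
  intro x _
  simp only [Pi.add_apply]; ring

lemma pair_neg_right (m : α →₀ ℤ) (g : α → ℤ) : pair m (-g) = -pair m g := by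
  unfold pair Finsupp.sum
  rw [← Finset.sum_neg_distrib]
  apply Finset.sum_congr rfl
  intro x _
  simp only [Pi.neg_apply]; ring

lemma pair_smul_left (n : ℤ) (m : α →₀ ℤ) (g : α → ℤ) : pair (n • m) g = n * pair m g := by
  rw [pair_eq_sum (n • m) g (F := m.support) Finsupp.support_smul, pair_eq_sum m g subset_rfl,
    Finset.mul_sum]
  apply Finset.sum_congr rfl
  intro x _
  simp only [Finsupp.smul_apply, smul_eq_mul]; ring

lemma pair_sum_left {ι : Type} (s : Finset ι) (m : ι → (α →₀ ℤ)) (g : α → ℤ) :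
    pair (∑ i ∈ s, m i) g = ∑ i ∈ s, pair (m i) g := by
  classical
  induction s using Finset.induction_on with
  | empty => simp [pair_zero_left]
  | insert a s ha ih => rw [Finset.sum_insert ha, Finset.sum_insert ha, pair_add_left, ih]

lemma pair_fiber (m : α →₀ ℤ) (κ : α → ℕ) (c : ℕ → ℤ) :
    ∑ᶠ n, c n * pair m (ind κ n) = pair m (c ∘ κ) := by
  classical
  have h0 : ∀ n, pair m (ind κ n) = ∑ x ∈ m.support, if κ x = n then m x else 0 := by
    intro n
    rw [pair_eq_sum m _ subset_rfl]
    apply Finset.sum_congr rfl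
    intro x _
    by_cases h : κ x = n <;> simp [ind, h]
  rw [finsum_eq_sum_of_support_subset (s := m.support.image κ)]
  · rw [pair_eq_sum m _ subset_rfl]
    simp_rw [h0, Finset.mul_sum]
    rw [Finset.sum_comm]
    apply Finset.sum_congr rfl
    intro x hx
    rw [Finset.sum_eq_single (κ x)]
    · simp; ring
    · intro n _ hn; rw [if_neg (Ne.symm hn), mul_zero]
    · intro h; exact absurd (Finset.mem_image_of_mem κ hx) h
  · intro n hn
    rw [Finset.coe_image]
    by_contra hcon
    apply hn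
    simp only [h0]
    rw [Finset.sum_eq_zero, mul_zero]
    intro x hx
    rw [if_neg]
    intro h
    exact hcon ⟨x, hx, h⟩

end pair

/-! ### the vector measure -/

variable {I : Type}

/-- the characteristic function -/
noncomputable def chi {α : Type} (T : Set α) : α → ℤ := T.indicator 1

lemma chi_of_mem {α : Type} {T : Set α} {x : α} (h : x ∈ T) : chi T x = 1 :=
  Set.indicator_of_mem h _

lemma chi_of_notMem {α : Type} {T : Set α} {x : α} (h : x ∉ T) : chi T x = 0 :=
  Set.indicator_of_notMem h _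

/-- value of the image of a characteristic function -/
noncomputable def mu (E : (I → ℤ) →+ G I) (T : Set I) : I → ℤ := rep (E (chi T))

lemma mu_union (E : (I → ℤ) →+ G I) {S T : Set I} (h : Disjoint S T) :
    ∀ᶠ β in cocountable, mu E (S ∪ T) β = mu E S β + mu E T β := by
  have h1 : chi (S ∪ T) = chi S + chi T := by
    unfold chi
    rw [Set.indicator_union_of_disjoint h]
    rfl
  unfold mu
  rw [h1, map_add]
  exact rep_add _ _

lemma mu_empty (E : (I → ℤ) →+ G I) : ∀ᶠ β in cocountable, mu E ∅ β = 0 := by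
  have h1 : chi (∅ : Set I) = 0 := by
    unfold chi
    rw [Set.indicator_empty]; rfl
  unfold mu
  rw [h1, map_zero]
  exact rep_mk (0 : I → ℤ)

/-- a colouring from a disjoint family -/
lemma exists_colouring {J : Type} [Countable J] (T : J → Set I)
    (hT : ∀ i j, i ≠ j → Disjoint (T i) (T j)) (enc : J → ℕ) (henc : Function.Injective enc) :
    ∃ κ : I → ℕ, (∀ j, ind κ (enc j + 1) = chi (T j)) ∧
      ∀ x, κ x = 0 ↔ x ∉ ⋃ j, T j := by
  classical
  set κ : I → ℕ := fun x => if h : ∃ j, x ∈ T j then enc h.choose + 1 else 0 with hκ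
  have hv1 : ∀ x j, x ∈ T j → κ x = enc j + 1 := by
    intro x j hx
    have h : ∃ j, x ∈ T j := ⟨j, hx⟩
    have h1 := h.choose_spec
    have h2 : h.choose = j := by
      by_contra hne
      exact Set.disjoint_left.mp (hT _ _ hne) h1 hx
    simp only [hκ]
    rw [dif_pos h, h2]
  have hv0 : ∀ x, (¬ ∃ j, x ∈ T j) → κ x = 0 := by
    intro x h
    simp only [hκ]
    rw [dif_neg h]
  refine ⟨κ, ?_, ?_⟩
  · intro j
    funext x
    simp only [ind, chi, Set.indicator_apply, Pi.one_apply]
    by_cases hx : x ∈ T j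
    · rw [hv1 x j hx, if_pos rfl, if_pos hx]
    · rw [if_neg hx, if_neg]
      intro he
      by_cases h : ∃ i, x ∈ T i
      · obtain ⟨i, hi⟩ := h
        have h1 := hv1 x i hi
        have : i = j := henc (by omega)
        rw [this] at hi
        exact hx hi
      · rw [hv0 x h] at he; omega
  · intro x
    rw [Set.mem_iUnion]
    by_cases h : ∃ j, x ∈ T j
    · obtain ⟨i, hi⟩ := h
      rw [hv1 x i hi]
      exact ⟨fun h => by omega, fun h => absurd ⟨i, hi⟩ h⟩
    · exact ⟨fun _ => h, fun _ => hv0 x h⟩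

lemma mu_finite (hMA : MASigmaCentered) (hI : #I ≤ aleph 1) (E : (I → ℤ) →+ G I)
    {J : Type} [Countable J] (T : J → Set I) (hT : ∀ i j, i ≠ j → Disjoint (T i) (T j)) :
    ∀ᶠ β in cocountable, {j | mu E (T j) β ≠ 0}.Finite := by
  obtain ⟨enc, henc⟩ := exists_injective_nat J
  obtain ⟨κ, hκ, -⟩ := exists_colouring T hT enc henc
  filter_upwards [step1 hMA hI E κ] with β hβ
  have h1 : {j | mu E (T j) β ≠ 0} = (fun j => enc j + 1) ⁻¹' {n | w E κ n β ≠ 0} := by
    ext j
    simp only [Set.mem_ofPred_eq, Set.mem_preimage, w, hκ, mu]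
  rw [h1]
  apply hβ.preimage
  intro a _ b _ h
  exact henc (by simpa using h)

lemma mu_iUnion (hMA : MASigmaCentered) (hI : #I ≤ aleph 1) (E : (I → ℤ) →+ G I)
    (T : ℕ → Set I) (hT : ∀ i j, i ≠ j → Disjoint (T i) (T j)) :
    ∀ᶠ β in cocountable, mu E (⋃ n, T n) β = ∑ᶠ n, mu E (T n) β := by
  obtain ⟨κ, hκ, hκ0⟩ := exists_colouring T hT id Function.injective_id
  set c : ℕ → ℤ := fun n => if n = 0 then 0 else 1 with hc
  have h1 : c ∘ κ = chi (⋃ n, T n) := by
    funext x
    simp only [Function.comp_apply, hc]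
    by_cases h : κ x = 0
    · rw [if_pos h, chi_of_notMem ((hκ0 x).mp h)]
    · rw [if_neg h, chi_of_mem]
      by_contra h'
      exact h ((hκ0 x).mpr h')
  filter_upwards [step1 hMA hI E κ, step2 hMA hI E κ c] with β hf hβ
  rw [h1] at hβ
  rw [mu, hβ]
  obtain ⟨N, hN⟩ := hf.bddAbove
  have hw : ∀ n, mu E (T n) β = w E κ (n + 1) β := by
    intro n
    have := hκ n
    simp only [id] at this
    rw [w, this, mu]
  rw [finsum_eq_sum_of_support_subset (s := Finset.range (N + 1)),
    finsum_eq_sum_of_support_subset (s := Finset.range N), Finset.sum_range_succ']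
  · have h0 : c 0 * w E κ 0 β = 0 := by simp [hc]
    rw [h0, add_zero]
    apply Finset.sum_congr rfl
    intro n _
    rw [hw]; simp [hc]
  · intro n hn
    rw [Function.mem_support, hw] at hn
    have : n + 1 ≤ N := hN hn
    simp only [Finset.coe_range, Set.mem_Iio]; omega
  · intro n hn
    rw [Function.mem_support] at hn
    have h2 : w E κ n β ≠ 0 := fun h => hn (by rw [h, mul_zero])
    have : n ≤ N := hN h2
    simp only [Finset.coe_range, Set.mem_Iio]; omega

/-- a bad point of a function on clopen sets -/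
def Bad (φ : K → ℤ) (y : Cantor) : Prop :=
  ∀ W : K, y ∈ W → ∃ V : K, V ≤ W ∧ y ∉ V ∧ φ V ≠ 0

/-- for almost all rows there is no bad point -/
theorem no_bad (hMA : MASigmaCentered) (hI : #I ≤ aleph 1) (E : (I → ℤ) →+ G I)
    (X : I → Cantor) :
    ∀ᶠ β in cocountable, ∀ y, ¬ Bad (fun V : K => mu E (X ⁻¹' V) β) y := by
  classical
  by_contra hcon
  set B : Set I := {β | ∃ y, Bad (fun V : K => mu E (X ⁻¹' V) β) y} with hB
  have hBc : ¬ B.Countable := by
    intro h
    apply hcon
    rw [Filter.Eventually, mem_cocountable]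
    apply h.mono
    intro β hβ
    simp only [Set.mem_compl_iff, Set.mem_ofPred_eq, not_forall, not_not] at hβ
    exact hβ
  choose y hy using fun β : B => β.2
  have hBI : #B ≤ aleph 1 := (mk_set_le B).trans hI
  obtain ⟨𝒱, hd, h1, h2⟩ := generic_clopen hMA (Set.range y) (mk_range_le.trans hBI)
    (ρ := {a : B × K // y a.1 ∈ a.2}) (by
      refine (mk_subtype_le _).trans ?_
      rw [mk_prod, lift_id, lift_id]
      calc #B * #K ≤ aleph 1 * ℵ₀ := by
            gcongr
            exact mk_le_aleph0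
        _ = aleph 1 := by rw [mul_aleph0_eq (aleph0_le_aleph 1)])
    (fun a => y a.1.1) (fun a V => V ≤ a.1.2 ∧ mu E (X ⁻¹' V) a.1.1 ≠ 0)
    (by
      rintro ⟨⟨β, W0⟩, hβ⟩ W hW
      obtain ⟨V, hV1, hV2, hV3⟩ := hy β (W ⊓ W0) ⟨hW, hβ⟩
      exact ⟨V, hV1.trans inf_le_left, ⟨hV1.trans inf_le_right, hV3⟩, fun _ => hV2⟩)
  have h3 : ∀ᶠ β in cocountable, ∀ k, {V : 𝒱 k | mu E (X ⁻¹' (V : K)) β ≠ 0}.Finite := by
    rw [eventually_countable_forall]
    intro k
    apply mu_finite hMA hI E (fun V : 𝒱 k => X ⁻¹' ((V : K) : Set Cantor))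
    intro V V' hne
    apply Disjoint.preimage
    exact hd k V V.2 V' V'.2 (fun h => hne (Subtype.ext h))
  have h4 := h3.and (mu_empty E)
  obtain ⟨β, hβ, h5, h6⟩ : ∃ β ∈ B, (∀ k, {V : 𝒱 k | mu E (X ⁻¹' (V : K)) β ≠ 0}.Finite) ∧
      mu E ∅ β = 0 := by
    by_contra hno
    apply hBc
    rw [Filter.Eventually, mem_cocountable] at h4
    apply h4.mono
    intro β hβ h
    exact hno ⟨β, hβ, h⟩
  obtain ⟨k, hk⟩ := h1 (y ⟨β, hβ⟩) ⟨_, rfl⟩
  set W : K := ((h5 k).toFinset.sup (fun V : 𝒱 k => (V : K)))ᶜ with hW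
  have hyW : y ⟨β, hβ⟩ ∈ W := by
    have h7 : y ⟨β, hβ⟩ ∉ (((h5 k).toFinset.sup (fun V : 𝒱 k => (V : K)) : K) : Set Cantor) := by
      have h8 : ∀ s : Finset (𝒱 k), y ⟨β, hβ⟩ ∉ ((s.sup (fun V : 𝒱 k => (V : K)) : K) :
          Set Cantor) := by
        intro s
        induction s using Finset.induction_on with
        | empty => simp
        | insert a s ha ih =>
          rw [Finset.sup_insert, Clopens.coe_sup]
          intro h
          rcases h with h | h
          · exact hk _ a.2 h
          · exact ih h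
      exact h8 _
    exact h7
  rcases h2 ⟨(⟨β, hβ⟩, W), hyW⟩ k with ⟨V, hV, h⟩ | ⟨V, hV, hVW, hne⟩
  · exact hk V hV h
  · have h9 : V ≤ (h5 k).toFinset.sup (fun V : 𝒱 k => (V : K)) := by
      have := Finset.le_sup (f := fun V : 𝒱 k => (V : K)) (s := (h5 k).toFinset) (b := ⟨V, hV⟩)
        (by rw [Set.Finite.mem_toFinset]; exact hne)
      exact this
    have h10 : V = ⊥ := by
      rw [← le_bot_iff]
      calc V ≤ (h5 k).toFinset.sup (fun V : 𝒱 k => (V : K)) ⊓ W := le_inf h9 hVW
        _ = ⊥ := by rw [hW, inf_compl_eq_bot]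
    apply hne
    rw [h10]
    simpa using h6

end Pool.Agent.W_MP_54b1e5_al
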