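import Pool.Agent.W_MP_54b1e5_al.StepC

set_option autoImplicit false

open Cardinal Filter TopologicalSpace
open scoped MeasureTheory

namespace Pool.Agent.W_MP_54b1e5_al

/-- a finitely additive function on clopen sets without bad points is a finite combination of
point masses -/
lemma exists_point_masses (φ : K → ℤ) (hadd : ∀ V V' : K, Disjoint V V' → φ (V ⊔ V') = φ V + φ V')
    (hbad : ∀ y, ¬ Bad φ y) : ∃ m : Cantor →₀ ℤ, ∀ V : K, φ V = pair m (chi (V : Set Cantor)) := by
  classical
  have h0 : φ ⊥ = 0 := by
    have := hadd ⊥ ⊥ disjoint_bot_left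
    rw [sup_bot_eq] at this
    omega
  have key : ∃ W : K, (Set.univ : Set Cantor) ⊆ W ∧
      ∃ m : Cantor →₀ ℤ, ∀ V : K, V ≤ W → φ V = pair m (chi (V : Set Cantor)) := by
    apply IsCompact.induction_on (isCompact_univ (X := Cantor))
      (p := fun s => ∃ W : K, s ⊆ W ∧
      ∃ m : Cantor →₀ ℤ, ∀ V : K, V ≤ W → φ V = pair m (chi (V : Set Cantor)))
    · refine ⟨⊥, by simp, 0, ?_⟩
      intro V hV
      rw [le_bot_iff] at hV
      rw [hV, h0, pair_zero_left]
    · rintro s t hst ⟨W, hW, h⟩
      exact ⟨W, hst.trans hW, h⟩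
    · rintro s t ⟨W1, hW1, m1, h1⟩ ⟨W2, hW2, m2, h2⟩
      refine ⟨W1 ⊔ W2, ?_, m1.filter (fun y => y ∈ W1) + m2.filter (fun y => y ∉ W1), ?_⟩
      · rw [Clopens.coe_sup]
        exact Set.union_subset_union hW1 hW2
      · intro V hV
        have e1 : φ V = φ (V ⊓ W1) + φ (V \ W1) := by
          rw [← hadd _ _ (by
            rw [disjoint_iff]
            exact inf_inf_sdiff V W1), sup_inf_sdiff]
        have e2 : V \ W1 ≤ W2 := by
          rw [sdiff_le_iff]
          exact hV
        rw [e1, h1 _ inf_le_right, h2 _ e2, pair_add_left]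
        congr 1
        · rw [pair_eq_sum (m1.filter (fun y => y ∈ W1)) _ (F := m1.support)
            (by rw [Finsupp.support_filter]; exact Finset.filter_subset _ _),
            pair_eq_sum m1 _ subset_rfl]
          apply Finset.sum_congr rfl
          intro y _
          by_cases hy : y ∈ W1
          · rw [Finsupp.filter_apply_pos (fun y => y ∈ W1) _ hy]
            congr 1
            by_cases hyV : y ∈ (V : Set Cantor)
            · rw [chi_of_mem hyV, chi_of_mem]
              exact ⟨hyV, hy⟩
            · rw [chi_of_notMem hyV, chi_of_notMem]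
              exact fun h => hyV h.1
          · rw [Finsupp.filter_apply_neg (fun y => y ∈ W1) _ hy, chi_of_notMem]
            · ring
            · exact fun h => hy h.2
        · rw [pair_eq_sum (m2.filter (fun y => y ∉ W1)) _ (F := m2.support)
            (by rw [Finsupp.support_filter]; exact Finset.filter_subset _ _),
            pair_eq_sum m2 _ subset_rfl]
          apply Finset.sum_congr rfl
          intro y _
          by_cases hy : y ∈ W1
          · rw [Finsupp.filter_apply_neg (fun y => y ∉ W1) _ (not_not.mpr hy), chi_of_notMem]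
            · ring
            · intro h
              rw [Clopens.coe_sdiff] at h
              exact h.2 hy
          · rw [Finsupp.filter_apply_pos (fun y => y ∉ W1) _ hy]
            congr 1
            by_cases hyV : y ∈ (V : Set Cantor)
            · rw [chi_of_mem hyV, chi_of_mem]
              rw [Clopens.coe_sdiff]
              exact ⟨hyV, hy⟩
            · rw [chi_of_notMem hyV, chi_of_notMem]
              rw [Clopens.coe_sdiff]
              exact fun h => hyV h.1
    · intro y _
      have hb := hbad y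
      unfold Bad at hb
      push Not at hb
      obtain ⟨W, hyW, hW⟩ := hb
      refine ⟨W, mem_nhdsWithin_of_mem_nhds (W.isClopen.2.mem_nhds hyW), W, subset_rfl,
        Finsupp.single y (φ W), ?_⟩
      intro V hV
      rw [pair_single]
      by_cases hyV : y ∈ V
      · have e1 : φ W = φ V + φ (W \ V) := by
          rw [← hadd _ _ disjoint_sdiff_self_right, sup_sdiff_cancel_right hV]
        have e2 : φ (W \ V) = 0 := by
          apply hW _ sdiff_le
          intro h
          have h' : y ∈ ((W \ V : K) : Set Cantor) := h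
          rw [Clopens.coe_sdiff] at h'
          exact h'.2 hyV
        rw [chi_of_mem (show y ∈ (V : Set Cantor) from hyV)]
        omega
      · rw [chi_of_notMem (show y ∉ (V : Set Cantor) from hyV), hW V hV hyV]
        ring
  obtain ⟨W, hW, m, hm⟩ := key
  refine ⟨m, fun V => hm V ?_⟩
  intro y _
  exact hW trivial

variable {I : Type}

/-- almost every row is a finite combination of point masses on clopen sets -/
theorem exists_masses (hMA : MASigmaCentered) (hI : #I ≤ aleph 1) (E : (I → ℤ) →+ G I)
    (X : I → Cantor) :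
    ∃ m : I → (Cantor →₀ ℤ), ∀ᶠ β in cocountable, ∀ V : K,
      mu E (X ⁻¹' V) β = pair (m β) (chi (V : Set Cantor)) := by
  classical
  have h1 : ∀ᶠ β in cocountable, ∀ V V' : K, Disjoint V V' →
      mu E (X ⁻¹' ((V ⊔ V' : K) : Set Cantor)) β = mu E (X ⁻¹' V) β + mu E (X ⁻¹' V') β := by
    rw [eventually_countable_forall]
    intro V
    rw [eventually_countable_forall]
    intro V'
    by_cases h : Disjoint V V'
    · have h2 : Disjoint (X ⁻¹' (V : Set Cantor)) (X ⁻¹' (V' : Set Cantor)) := by
        apply Disjoint.preimage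
        rw [Set.disjoint_iff_inter_eq_empty, ← Clopens.coe_inf, h.eq_bot, Clopens.coe_bot]
      filter_upwards [mu_union E h2] with β hβ _
      rw [Clopens.coe_sup, Set.preimage_union]
      exact hβ
    · exact Eventually.of_forall fun β h' => absurd h' h
  have h2 : ∀ᶠ β in cocountable, ∃ m : Cantor →₀ ℤ, ∀ V : K,
      mu E (X ⁻¹' V) β = pair m (chi (V : Set Cantor)) := by
    filter_upwards [h1, no_bad hMA hI E X] with β hβ hb
    exact exists_point_masses (fun V : K => mu E (X ⁻¹' V) β) hβ hb
  refine ⟨fun β => if h : ∃ m : Cantor →₀ ℤ, ∀ V : K,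
      mu E (X ⁻¹' V) β = pair m (chi (V : Set Cantor)) then h.choose else 0, ?_⟩
  filter_upwards [h2] with β hβ
  rw [dif_pos hβ]
  exact hβ.choose_spec

/-- the σ-algebra generated by the clopen sets -/
@[instance_reducible]
def borelK : MeasurableSpace Cantor := MeasurableSpace.generateFrom {s | IsClopen s}

lemma pair_chi_compl {α : Type} (m : α →₀ ℤ) (S : Set α) :
    pair m (chi Sᶜ) = pair m (chi Set.univ) - pair m (chi S) := by
  rw [pair_eq_sum m _ subset_rfl, pair_eq_sum m _ subset_rfl, pair_eq_sum m _ subset_rfl,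
    ← Finset.sum_sub_distrib]
  apply Finset.sum_congr rfl
  intro x _
  rw [chi_of_mem (Set.mem_univ x)]
  by_cases h : x ∈ S
  · rw [chi_of_mem h, chi_of_notMem (show x ∉ Sᶜ from fun h' => h' h)]; ring
  · rw [chi_of_notMem h, chi_of_mem (show x ∈ Sᶜ from h)]; ring

lemma pair_chi_iUnion {α : Type} (m : α →₀ ℤ) (S : ℕ → Set α)
    (hS : ∀ i j, i ≠ j → Disjoint (S i) (S j)) :
    pair m (chi (⋃ n, S n)) = ∑ᶠ n, pair m (chi (S n)) := by
  classical
  obtain ⟨κ, hκ, hκ0⟩ := exists_colouring S hS id Function.injective_id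
  have h1 := pair_fiber m κ (fun n => if n = 0 then 0 else 1)
  have h2 : (fun n => if n = 0 then (0 : ℤ) else 1) ∘ κ = chi (⋃ n, S n) := by
    funext x
    simp only [Function.comp_apply]
    by_cases h : κ x = 0
    · rw [if_pos h, chi_of_notMem ((hκ0 x).mp h)]
    · rw [if_neg h, chi_of_mem]
      by_contra h'
      exact h ((hκ0 x).mpr h')
  rw [h2] at h1
  rw [← h1]
  have hfin : {n | pair m (ind κ n) ≠ 0}.Finite := by
    apply (m.support.image κ).finite_toSet.subset
    intro n hn
    rw [Finset.coe_image]
    by_contra hcon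
    apply hn
    rw [pair_eq_sum m _ subset_rfl, Finset.sum_eq_zero]
    intro x hx
    rw [ind, if_neg, mul_zero]
    intro h
    exact hcon ⟨x, hx, h⟩
  obtain ⟨N, hN⟩ := hfin.bddAbove
  have hw : ∀ n, pair m (chi (S n)) = pair m (ind κ (n + 1)) := by
    intro n
    have := hκ n
    simp only [id] at this
    rw [this]
  rw [finsum_eq_sum_of_support_subset (s := Finset.range (N + 1)), Finset.sum_range_succ',
    finsum_eq_sum_of_support_subset (s := Finset.range N)]
  · simp only [if_true, zero_mul, add_zero]
    apply Finset.sum_congr rfl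
    intro n _
    rw [hw]; simp
  · intro n hn
    rw [Function.mem_support, hw] at hn
    have : n + 1 ≤ N := hN hn
    simp only [Finset.coe_range, Set.mem_Iio]; omega
  · intro n hn
    rw [Function.mem_support] at hn
    have h2 : pair m (ind κ n) ≠ 0 := fun h => hn (by rw [h, mul_zero])
    have : n ≤ N := hN h2
    simp only [Finset.coe_range, Set.mem_Iio]; omega

/-- the representation on Borel sets -/
theorem masses_borel (hMA : MASigmaCentered) (hI : #I ≤ aleph 1) (E : (I → ℤ) →+ G I)
    (X : I → Cantor) (m : I → (Cantor →₀ ℤ))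
    (hm : ∀ᶠ β in cocountable, ∀ V : K, mu E (X ⁻¹' V) β = pair (m β) (chi (V : Set Cantor)))
    (S : Set Cantor) (hS : MeasurableSet[borelK] S) :
    ∀ᶠ β in cocountable, mu E (X ⁻¹' S) β = pair (m β) (chi S) := by
  have huniv : ∀ᶠ β in cocountable, mu E Set.univ β = pair (m β) (chi Set.univ) := by
    filter_upwards [hm] with β hβ
    have := hβ ⊤
    rw [Clopens.coe_top, Set.preimage_univ] at this
    exact this
  refine MeasurableSpace.induction_on_inter (m := borelK)
    (C := fun S _ => ∀ᶠ β in cocountable, mu E (X ⁻¹' S) β = pair (m β) (chi S)) rfl ?_ ?_ ?_ ?_ ?_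
    S hS
  · intro s hs t ht _
    exact IsClopen.inter hs ht
  · filter_upwards [hm] with β hβ
    have := hβ ⊥
    rw [Clopens.coe_bot] at this
    exact this
  · intro t ht
    filter_upwards [hm] with β hβ
    exact hβ ⟨t, ht⟩
  · intro t _ ht
    have h1 : Disjoint (X ⁻¹' t) (X ⁻¹' tᶜ) := by
      apply Disjoint.preimage
      exact disjoint_compl_right
    filter_upwards [ht, mu_union E h1, huniv] with β e1 e2 e3
    rw [← Set.preimage_union, Set.union_compl_self, Set.preimage_univ] at e2
    rw [pair_chi_compl]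
    linarith
  · intro f hf _ h
    rw [← eventually_countable_forall] at h
    have hd : ∀ i j, i ≠ j → Disjoint (X ⁻¹' (f i)) (X ⁻¹' (f j)) := by
      intro i j hij
      apply Disjoint.preimage
      exact hf hij
    filter_upwards [h, mu_iUnion hMA hI E (fun n => X ⁻¹' (f n)) hd] with β e1 e2
    rw [Set.preimage_iUnion, e2, pair_chi_iUnion _ _ (fun i j hij => hf hij)]
    apply finsum_congr
    intro n
    exact e1 n

/-- every set of size at most `ℵ₁` is a `Q`-set -/
theorem qset (hMA : MASigmaCentered) (Y T : Set Cantor) (hY : #Y ≤ aleph 1) :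
    ∃ S, MeasurableSet[borelK] S ∧ ∀ y ∈ Y, y ∈ S ↔ y ∈ T := by
  obtain ⟨𝒱, -, h1, h2⟩ := generic_clopen hMA (Y \ T) ((mk_le_mk_of_subset Set.sdiff_subset).trans hY)
    (ρ := (Y ∩ T : Set Cantor)) ((mk_le_mk_of_subset Set.inter_subset_left).trans hY)
    (fun a => (a : Cantor)) (fun a V => (a : Cantor) ∈ V)
    (by
      rintro ⟨y, hy⟩ W hW
      exact ⟨W, le_rfl, hW, fun h => absurd hy.2 h.2⟩)
  refine ⟨⋂ k, ⋃ V ∈ 𝒱 k, (V : Set Cantor), ?_, ?_⟩
  · apply MeasurableSet.iInter
    intro k
    apply MeasurableSet.biUnion (Set.to_countable _)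
    intro V _
    exact MeasurableSpace.measurableSet_generateFrom V.isClopen
  · intro y hy
    rw [Set.mem_iInter]
    constructor
    · intro h
      by_contra hT
      obtain ⟨k, hk⟩ := h1 y ⟨hy, hT⟩
      have := h k
      rw [Set.mem_iUnion₂] at this
      obtain ⟨V, hV, hyV⟩ := this
      exact hk V hV hyV
    · intro hT k
      rw [Set.mem_iUnion₂]
      rcases h2 ⟨y, hy, hT⟩ k with ⟨V, hV, h⟩ | ⟨V, hV, h⟩
      · exact ⟨V, hV, h⟩
      · exact ⟨V, hV, h⟩

/-- the matrix representation -/
theorem matrix_rep (hMA : MASigmaCentered) (hI : #I ≤ aleph 1) (E : (I → ℤ) →+ G I) :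
    ∃ M : I → (I →₀ ℤ), ∀ f : I → ℤ, ∀ᶠ β in cocountable, rep (E f) β = pair (M β) f := by
  classical
  -- an injection into the Cantor space
  have hcard : #I ≤ #Cantor := by
    refine hI.trans ?_
    have : #Cantor = 𝔠 := by simp [Cantor]
    rw [this]
    exact aleph_one_le_continuum
  obtain ⟨⟨X, hX⟩⟩ := hcard
  obtain ⟨m, hm⟩ := exists_masses hMA hI E X
  -- the set of relevant points
  set Y : Set Cantor := Set.range X ∪ ⋃ β, ((m β).support : Set Cantor) with hY
  have hYc : #Y ≤ aleph 1 := by
    refine (mk_union_le _ _).trans ?_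
    have e1 : #(Set.range X) ≤ aleph 1 := mk_range_le.trans hI
    have e2 : #(⋃ β, ((m β).support : Set Cantor)) ≤ aleph 1 := by
      refine (mk_iUnion_le _).trans ?_
      calc #I * ⨆ i, #((m i).support : Set Cantor) ≤ aleph 1 * ℵ₀ := by
            gcongr
            apply ciSup_le'
            intro i
            exact (Finset.countable_toSet _).le_aleph0
        _ = aleph 1 := by rw [mul_aleph0_eq (aleph0_le_aleph 1)]
    exact (add_le_add e1 e2).trans (by rw [add_eq_self (aleph0_le_aleph 1)])
  set M : I → (I →₀ ℤ) := fun β => (m β).comapDomain X hX.injOn with hM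
  -- on characteristic functions
  have h1 : ∀ T : Set I, ∀ᶠ β in cocountable, mu E T β = pair (M β) (chi T) := by
    intro T
    obtain ⟨S, hS, hST⟩ := qset hMA Y (X '' T) hYc
    have h2 : X ⁻¹' S = T := by
      ext x
      rw [Set.mem_preimage, hST (X x) (Or.inl ⟨x, rfl⟩)]
      exact hX.mem_set_image
    filter_upwards [masses_borel hMA hI E X m hm S hS] with β hβ
    rw [h2] at hβ
    rw [hβ]
    have h3 : pair (m β) (chi S) = pair (m β) (chi (X '' T)) := by
      apply pair_congr
      intro y hy
      have hyY : y ∈ Y := Or.inr (Set.mem_iUnion.mpr ⟨β, hy⟩)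
      by_cases h : y ∈ S
      · rw [chi_of_mem h, chi_of_mem ((hST y hyY).mp h)]
      · rw [chi_of_notMem h, chi_of_notMem (fun h' => h ((hST y hyY).mpr h'))]
    rw [h3, pair_eq_sum (m β) _ subset_rfl, pair_eq_sum (M β) (chi T) subset_rfl]
    have h4 : (M β).support = (m β).support.preimage X hX.injOn := rfl
    rw [h4, ← Finset.sum_preimage X (m β).support hX.injOn
      (fun y => m β y * chi (X '' T) y)]
    · apply Finset.sum_congr rfl
      intro x _
      have h5 : M β x = m β (X x) := rfl
      rw [h5]
      congr 1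
      by_cases h : x ∈ T
      · rw [chi_of_mem h, chi_of_mem (Set.mem_image_of_mem _ h)]
      · rw [chi_of_notMem h, chi_of_notMem (fun h' => h (hX.mem_set_image.mp h'))]
    · intro y _ hy
      rw [chi_of_notMem, mul_zero]
      rintro ⟨x, -, rfl⟩
      exact hy ⟨x, rfl⟩
  refine ⟨M, fun f => ?_⟩
  set κ : I → ℕ := fun x => Encodable.encode (f x) with hκ
  set c : ℕ → ℤ := fun n => (Encodable.decode (α := ℤ) n).getD 0 with hc
  have h2 : c ∘ κ = f := by
    funext x
    simp only [hc, hκ, Function.comp_apply]
    rw [Encodable.encodek]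
    rfl
  have h3 : ∀ᶠ β in cocountable, ∀ n, w E κ n β = pair (M β) (ind κ n) := by
    rw [eventually_countable_forall]
    intro n
    have h4 : chi {x | κ x = n} = ind κ n := by
      funext x
      unfold ind
      by_cases h : κ x = n
      · rw [if_pos h, chi_of_mem (show x ∈ {x | κ x = n} from h)]
      · rw [if_neg h, chi_of_notMem (show x ∉ {x | κ x = n} from h)]
    have h5 := h1 {x | κ x = n}
    rw [mu, h4] at h5
    exact h5
  filter_upwards [step2 hMA hI E κ c, h3] with β e1 e2
  rw [h2] at e1
  rw [e1, ← h2, ← pair_fiber]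
  apply finsum_congr
  intro n
  rw [e2 n]

end Pool.Agent.W_MP_54b1e5_al
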