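import Pool.Agent.W_MP_54b1e5_al.StepD

set_option autoImplicit false

open Cardinal Filter

namespace Pool.Agent.W_MP_54b1e5_al

variable {I : Type}

lemma pair_pi_single {α : Type} [DecidableEq α] (m : α →₀ ℤ) (x : α) :
    pair m (chi {x}) = m x := by
  classical
  rw [pair_eq_sum m _ (F := insert x m.support) (Finset.subset_insert _ _),
    Finset.sum_eq_single x]
  · rw [chi_of_mem (Set.mem_singleton x), mul_one]
  · intro b _ hb
    rw [chi_of_notMem (by simpa using hb), mul_zero]
  · intro h; exact absurd (Finset.mem_insert_self _ _) h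

/-- among uncountably many rows with countable columns there are uncountably many with
pairwise disjoint supports -/
lemma exists_disjoint_rows (R : I → (I →₀ ℤ)) (hcol : ∀ x, {β | R β x ≠ 0}.Countable)
    (B : Set I) (hB : ¬ B.Countable) :
    ∃ S ⊆ B, ¬ S.Countable ∧ ∀ β ∈ S, ∀ γ ∈ S, β ≠ γ → Disjoint (R β).support (R γ).support := by
  classical
  obtain ⟨S, hS⟩ := zorn_subset {S : Set I | S ⊆ B ∧
      S.PairwiseDisjoint (fun β => (R β).support)} (by
    intro c hc hchain
    refine ⟨⋃₀ c, ⟨?_, ?_⟩, fun s hs => Set.subset_sUnion_of_mem hs⟩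
    · exact Set.sUnion_subset fun s hs => (hc hs).1
    · rw [Set.pairwiseDisjoint_sUnion hchain.directedOn]
      exact fun s hs => (hc hs).2)
  refine ⟨S, hS.prop.1, ?_, fun β hβ γ hγ h => hS.prop.2 hβ hγ h⟩
  intro hSc
  set U : Set I := ⋃ β ∈ S, ((R β).support : Set I) with hU
  have hUc : U.Countable := hSc.biUnion fun β _ => Finset.countable_toSet _
  have hVc : (S ∪ ⋃ x ∈ U, {β | R β x ≠ 0}).Countable :=
    hSc.union (hUc.biUnion fun x _ => hcol x)
  have hex : ∃ β ∈ B, β ∉ S ∪ ⋃ x ∈ U, {β | R β x ≠ 0} := by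
    by_contra hno
    push Not at hno
    exact hB (hVc.mono hno)
  obtain ⟨β, hβB, hβ⟩ := hex
  rw [Set.mem_union, not_or] at hβ
  have hins : insert β S ∈ {S : Set I | S ⊆ B ∧ S.PairwiseDisjoint (fun β => (R β).support)} := by
    refine ⟨Set.insert_subset hβB hS.prop.1, ?_⟩
    rw [Set.pairwiseDisjoint_insert_of_notMem hβ.1]
    refine ⟨hS.prop.2, fun γ hγ => ?_⟩
    rw [Finset.disjoint_left]
    intro x hx hx'
    apply hβ.2
    rw [Set.mem_iUnion₂]
    refine ⟨x, ?_, ?_⟩
    · rw [hU, Set.mem_iUnion₂]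
      exact ⟨γ, hγ, hx'⟩
    · exact Finsupp.mem_support_iff.mp hx
  exact hβ.1 (hS.le_of_ge hins (Set.subset_insert _ _) (Set.mem_insert _ _))

/-- a matrix inducing the zero map has almost all rows zero -/
lemma rows_zero (R : I → (I →₀ ℤ)) (h : ∀ f : I → ℤ, ∀ᶠ β in cocountable, pair (R β) f = 0) :
    ∀ᶠ β in cocountable, R β = 0 := by
  classical
  by_contra hcon
  have hB : ¬ {β | R β ≠ 0}.Countable := by
    intro hc
    apply hcon
    rw [Filter.Eventually, mem_cocountable]
    exact hc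
  have hcol : ∀ x, {β | R β x ≠ 0}.Countable := by
    intro x
    have h1 := h (chi {x})
    rw [Filter.Eventually, mem_cocountable] at h1
    apply h1.mono
    intro β hβ h2
    rw [Set.mem_ofPred_eq, pair_pi_single] at h2
    exact hβ h2
  obtain ⟨S, hSB, hSc, hSd⟩ := exists_disjoint_rows R hcol _ hB
  have hx : ∀ β : S, ∃ x, x ∈ (R β).support := by
    rintro ⟨β, hβ⟩
    have : R β ≠ 0 := hSB hβ
    exact Finsupp.support_nonempty_iff.mpr this
  choose x hx using hx
  have h1 := h (chi (Set.range x))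
  rw [Filter.Eventually, mem_cocountable] at h1
  apply hSc
  apply h1.mono
  intro β hβ h2
  rw [Set.mem_ofPred_eq, pair_eq_sum (R β) _ subset_rfl, Finset.sum_eq_single (x ⟨β, hβ⟩)] at h2
  · rw [chi_of_mem (show x ⟨β, hβ⟩ ∈ Set.range x from ⟨_, rfl⟩), mul_one] at h2
    exact (Finsupp.mem_support_iff.mp (hx ⟨β, hβ⟩)) h2
  · intro b hb hne
    rw [chi_of_notMem, mul_zero]
    rintro ⟨⟨γ, hγ⟩, rfl⟩
    by_cases hγβ : γ = β
    · subst hγβ; exact hne rfl
    · exact Finset.disjoint_left.mp (hSd γ hγ β hβ hγβ) (hx ⟨γ, hγ⟩) hb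
  · intro hb
    exact absurd (hx ⟨β, hβ⟩) hb

/-- content and a Bezout vector of a nonzero finitely supported function -/
lemma exists_bezout (m : I →₀ ℤ) (hm : m ≠ 0) :
    ∃ (g : ℤ) (r u : I →₀ ℤ), g ≠ 0 ∧ m = g • r ∧ u.support ⊆ m.support ∧ pair r u = 1 := by
  classical
  obtain ⟨g, hg⟩ := (IsPrincipalIdealRing.principal
    (Submodule.span ℤ (m '' (m.support : Set I)) : Submodule ℤ ℤ)).principal
  have h1 : ∀ x ∈ m.support, ∃ a : ℤ, m x = g * a := by
    intro x hx
    have h2 : m x ∈ Submodule.span ℤ (m '' (m.support : Set I)) :=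
      Submodule.subset_span ⟨x, hx, rfl⟩
    rw [hg, Submodule.mem_span_singleton] at h2
    obtain ⟨a, ha⟩ := h2
    exact ⟨a, by rw [← ha, smul_eq_mul]; ring⟩
  have h2 : g ∈ Submodule.span ℤ (m '' (m.support : Set I)) := by
    rw [hg]; exact Submodule.mem_span_singleton_self g
  rw [Finsupp.mem_span_image_iff_linearCombination] at h2
  obtain ⟨u, hu, hug⟩ := h2
  have hg0 : g ≠ 0 := by
    intro hg0
    apply hm
    ext x
    by_contra hx
    obtain ⟨a, ha⟩ := h1 x (Finsupp.mem_support_iff.mpr hx)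
    apply hx
    rw [ha, hg0, zero_mul]; rfl
  choose! a ha using h1
  refine ⟨g, Finsupp.onFinset m.support (fun x => if x ∈ m.support then a x else 0)
    (fun x hx => by by_contra h; simp [h] at hx), u, hg0, ?_, ?_, ?_⟩
  · ext x
    rw [Finsupp.smul_apply, Finsupp.onFinset_apply, smul_eq_mul]
    by_cases hx : x ∈ m.support
    · rw [if_pos hx, ha x hx]
    · rw [if_neg hx, mul_zero]
      exact Finsupp.notMem_support_iff.mp hx
  · exact hu
  · have h3 : g * pair (Finsupp.onFinset m.support (fun x => if x ∈ m.support then a x else 0)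
      (fun x hx => by by_contra h; simp [h] at hx)) u = g * 1 := by
      rw [pair_eq_sum _ _ (F := m.support) Finsupp.support_onFinset_subset, Finset.mul_sum, mul_one]
      conv_rhs => rw [← hug]
      rw [Finsupp.linearCombination_apply, Finsupp.sum_of_support_subset u hu _ (by simp)]
      apply Finset.sum_congr rfl
      intro x hx
      rw [Finsupp.onFinset_apply, if_pos hx, smul_eq_mul, ha x hx]
      ring
    exact mul_left_cancel₀ hg0 h3

/-- the rows of an idempotent are combinations of rows -/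
lemma idem_rows (e : G I →+ G I) (hee : ∀ g, e (e g) = e g) (M : I → (I →₀ ℤ))
    (hM : ∀ f : I → ℤ, e (QuotientAddGroup.mk f) = QuotientAddGroup.mk (fun β => pair (M β) f)) :
    ∀ᶠ β in cocountable, ∑ x ∈ (M β).support, M β x • M x = M β := by
  have h1 : ∀ᶠ β in cocountable, (∑ x ∈ (M β).support, M β x • M x) + (-1 : ℤ) • M β = 0 := by
    apply rows_zero (fun β => (∑ x ∈ (M β).support, M β x • M x) + (-1 : ℤ) • M β)
    intro f
    have h2 := hee (QuotientAddGroup.mk f)
    rw [hM f, hM, mk_eq_iff] at h2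
    filter_upwards [h2] with β hβ
    rw [pair_add_left, pair_smul_left, pair_sum_left]
    simp_rw [pair_smul_left]
    rw [pair_eq_sum (M β) _ subset_rfl] at hβ
    rw [hβ]; ring
  filter_upwards [h1] with β hβ
  rw [neg_smul, one_smul] at hβ
  rwa [← sub_eq_add_neg, sub_eq_zero] at hβ

end Pool.Agent.W_MP_54b1e5_al
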