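import Pool.Agent.W_MP_54b1e5_al.StepE

set_option autoImplicit false

open Cardinal Filter

namespace Pool.Agent.W_MP_54b1e5_al

variable {I : Type}

/-- the main splitting: a nonzero retract of `G I` whose idempotent is given by a row finite
matrix has a retract `G R` with `R` an uncountable subset of `I` -/
theorem exists_retract {D : Type} [AddCommGroup D]
    (i : D →+ G I) (p : G I →+ D) (hpi : ∀ d, p (i d) = d) (hD : ∃ d : D, d ≠ 0)
    (M : I → (I →₀ ℤ)) (hM : ∀ f : I → ℤ, (i.comp p) (QuotientAddGroup.mk f) =
      QuotientAddGroup.mk (fun β => pair (M β) f)) :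
    ∃ R : Set I, ¬ R.Countable ∧ ∃ (i' : G R →+ D) (p' : D →+ G R), ∀ x, p' (i' x) = x := by
  classical
  set e : G I →+ G I := i.comp p with he
  have hee : ∀ g, e (e g) = e g := by
    intro g
    simp only [he, AddMonoidHom.comp_apply, hpi]
  have hcol : ∀ x, {β | M β x ≠ 0}.Countable := by
    intro x
    have h1 : (QuotientAddGroup.mk (chi {x}) : G I) = QuotientAddGroup.mk 0 := by
      rw [mk_eq_iff, Filter.Eventually, mem_cocountable]
      apply (Set.countable_singleton x).mono
      intro y hy
      by_contra hne
      exact hy (chi_of_notMem hne)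
    have h2 := hM (chi {x})
    rw [h1, QuotientAddGroup.mk_zero, map_zero, ← QuotientAddGroup.mk_zero, mk_eq_iff,
      Filter.Eventually, mem_cocountable] at h2
    apply h2.mono
    intro β hβ h3
    rw [Set.mem_ofPred_eq, pair_pi_single] at h3
    exact hβ h3.symm
  have hB : ¬ {β | M β ≠ 0}.Countable := by
    intro hc
    obtain ⟨d, hd⟩ := hD
    apply hd
    rw [← hpi d]
    have h1 : e (i d) = 0 := by
      rw [← mk_rep (i d), hM, ← QuotientAddGroup.mk_zero, mk_eq_iff, Filter.Eventually,
        mem_cocountable]
      apply hc.mono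
      intro β hβ h2
      apply hβ
      rw [Set.mem_ofPred_eq, h2, pair_zero_left]; rfl
    have h2 : i d = e (i d) := by simp only [he, AddMonoidHom.comp_apply, hpi]
    rw [h2, h1, map_zero]
  obtain ⟨R, hRB, hRc, hRd⟩ := exists_disjoint_rows M hcol _ hB
  refine ⟨R, hRc, ?_⟩
  choose! g r u hg hgr hu hru using exists_bezout (I := I)
  have hne : ∀ β : R, M β ≠ 0 := fun β => hRB β.2
  -- supports of the reduced rows
  have hsupp : ∀ β : R, (r (M β)).support = (M β).support := by
    intro β
    have h1 : M β = g (M β) • r (M β) := hgr (M β) (hne β)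
    have h2 : (g (M β) • r (M β)).support = (r (M β)).support :=
      Finsupp.support_smul_eq (hg (M β) (hne β))
    rw [← h2, ← h1]
  have huniq : ∀ (β γ : R) (x : I), x ∈ (M β).support → x ∈ (M γ).support → β = γ := by
    intro β γ x h1 h2
    by_contra hne'
    exact Finset.disjoint_left.mp (hRd β β.2 γ γ.2 (fun h => hne' (Subtype.ext h))) h1 h2
  -- the embedding on functions
  set ιf : (R → ℤ) →+ (I → ℤ) :=
    { toFun := fun c x => if h : ∃ β : R, x ∈ (M β).support then
        c h.choose * u (M h.choose) x else 0
      map_zero' := by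
        funext x
        by_cases h : ∃ β : R, x ∈ (M β).support
        · simp only [dif_pos h, Pi.zero_apply, zero_mul]
        · simp only [dif_neg h, Pi.zero_apply]
      map_add' := by
        intro c c'
        funext x
        by_cases h : ∃ β : R, x ∈ (M β).support
        · simp only [dif_pos h, Pi.add_apply, add_mul]
        · simp only [dif_neg h, Pi.add_apply, add_zero] } with hιf
  have hι1 : ∀ (c : R → ℤ) (β : R) (x : I), x ∈ (M β).support → ιf c x = c β * u (M β) x := by
    intro c β x hx
    have h : ∃ β : R, x ∈ (M β).support := ⟨β, hx⟩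
    have h1 : h.choose = β := huniq _ _ x h.choose_spec hx
    have h2 : ιf c x = c h.choose * u (M h.choose) x := by
      change (if h : ∃ β : R, x ∈ (M β).support then _ else _) = _
      rw [dif_pos h]
    rw [h2, h1]
  have hι0 : ∀ (c : R → ℤ) (x : I), (¬ ∃ β : R, x ∈ (M β).support) → ιf c x = 0 := by
    intro c x h
    change (if h : ∃ β : R, x ∈ (M β).support then _ else _) = _
    rw [dif_neg h]
  have hιctbl : ctblSupp R ≤ (ctblSupp I).comap ιf := by
    intro c hc
    have hc' : (Function.support c).Countable := hc
    change (Function.support (ιf c)).Countable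
    have h1 : (⋃ β ∈ Function.support c, ((M (β : I)).support : Set I)).Countable :=
      hc'.biUnion fun β _ => Finset.countable_toSet _
    apply h1.mono
    intro x hx
    by_cases h : ∃ β : R, x ∈ (M β).support
    · obtain ⟨β, hβ⟩ := h
      rw [Function.mem_support, hι1 c β x hβ] at hx
      rw [Set.mem_iUnion₂]
      exact ⟨β, fun h => hx (by rw [h, zero_mul]), hβ⟩
    · exact absurd (hι0 c x h) hx
  -- the retraction on functions
  set lf : (I → ℤ) →+ (R → ℤ) :=
    { toFun := fun f β => pair (r (M β)) f
      map_zero' := by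
        funext β
        simp [pair]
      map_add' := by
        intro f f'
        funext β
        simp only [pair_add_right, Pi.add_apply] } with hlf
  have hl : ∀ (f : I → ℤ) (β : R), lf f β = pair (r (M β)) f := fun _ _ => rfl
  have hlctbl : ctblSupp I ≤ (ctblSupp R).comap lf := by
    intro f hf
    have hf' : (Function.support f).Countable := hf
    change (Function.support (lf f)).Countable
    have h1 : (⋃ x ∈ Function.support f, {β : R | x ∈ (M β).support}).Countable := by
      apply hf'.biUnion
      intro x _
      apply Set.Subsingleton.countable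
      intro β hβ γ hγ
      exact huniq β γ x hβ hγ
    apply h1.mono
    intro β hβ
    by_contra hcon
    apply hβ
    rw [hl, pair_eq_sum _ _ subset_rfl, Finset.sum_eq_zero]
    intro x hx
    rw [hsupp] at hx
    have : f x = 0 := by
      by_contra hfx
      apply hcon
      rw [Set.mem_iUnion₂]
      exact ⟨x, hfx, hx⟩
    rw [this, mul_zero]
  have hlι : ∀ c, lf (ιf c) = c := by
    intro c
    funext β
    rw [hl, pair_eq_sum _ _ subset_rfl]
    have h1 : ∀ x ∈ (r (M β)).support, r (M β) x * ιf c x = c β * (r (M β) x * u (M β) x) := by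
      intro x hx
      rw [hsupp] at hx
      rw [hι1 c β x hx]; ring
    rw [Finset.sum_congr rfl h1, ← Finset.mul_sum, ← pair_eq_sum _ _ subset_rfl,
      hru (M β) (hne β), mul_one]
  set ι : G R →+ G I := QuotientAddGroup.map _ _ ιf hιctbl with hι
  set l : G I →+ G R := QuotientAddGroup.map _ _ lf hlctbl with hl'
  have hle : ∀ g, l (e g) = l g := by
    intro x
    obtain ⟨f, rfl⟩ := QuotientAddGroup.mk_surjective x
    rw [hM, hl']
    change (QuotientAddGroup.mk (lf _) : G R) = QuotientAddGroup.mk (lf f)
    rw [mk_eq_iff]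
    have h1 := idem_rows e hee M hM
    have h2 : ∀ᶠ β : R in cocountable, ∑ x ∈ (M β).support, M β x • M x = M β := by
      rw [Filter.Eventually, mem_cocountable] at h1 ⊢
      have := h1.preimage (f := ((↑) : R → I)) Subtype.val_injective
      exact this
    filter_upwards [h2] with β hβ
    rw [hl, hl]
    apply mul_left_cancel₀ (hg (M β) (hne β))
    have h3 : g (M β) * pair (r (M β)) f = pair (M β) f := by
      rw [← pair_smul_left, ← hgr (M β) (hne β)]
    have h4 : g (M β) * pair (r (M β)) (fun β => pair (M β) f) =
        pair (M β) (fun β => pair (M β) f) := by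
      rw [← pair_smul_left, ← hgr (M β) (hne β)]
    rw [h3, h4, pair_eq_sum (M β) (fun β => pair (M β) f) subset_rfl]
    conv_rhs => rw [← hβ]
    rw [pair_sum_left]
    simp_rw [pair_smul_left]
  refine ⟨p.comp ι, l.comp i, ?_⟩
  intro x
  obtain ⟨c, rfl⟩ := QuotientAddGroup.mk_surjective x
  have h1 : (l.comp i) ((p.comp ι) (QuotientAddGroup.mk c)) = l (e (ι (QuotientAddGroup.mk c))) :=
    rfl
  rw [h1, hle]
  change (QuotientAddGroup.mk (lf (ιf c)) : G R) = QuotientAddGroup.mk c
  rw [hlι]

end Pool.Agent.W_MP_54b1e5_al
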