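import Pool.Agent.W_MP_54b1e5_al.StepF

set_option autoImplicit false

open Cardinal Filter

namespace Pool.Agent.W_MP_54b1e5_al

/-! ### the decomposition argument -/

/-- a retract is a direct factor -/
noncomputable def retractEquiv {A D : Type} [AddCommGroup A] [AddCommGroup D] (i : A →+ D)
    (p : D →+ A) (h : ∀ a, p (i a) = a) : D ≃+ A × p.ker where
  toFun d := (p d, ⟨d - i (p d), by rw [AddMonoidHom.mem_ker, map_sub, h, sub_self]⟩)
  invFun a := i a.1 + a.2
  left_inv d := by simp
  right_inv a := by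
    obtain ⟨a, k, hk⟩ := a
    rw [AddMonoidHom.mem_ker] at hk
    ext
    · simp [h, hk]
    · simp [h, hk]
  map_add' d d' := by
    ext
    · simp
    · simp only [map_add, Prod.snd_add, AddSubgroup.coe_add]
      abel

/-- sequences in a product -/
def seqProd (A B : Type) [AddCommGroup A] [AddCommGroup B] :
    (ℕ → A × B) ≃+ (ℕ → A) × (ℕ → B) where
  toFun f := (fun n => (f n).1, fun n => (f n).2)
  invFun f := fun n => (f.1 n, f.2 n)
  left_inv _ := rfl
  right_inv _ := rfl
  map_add' _ _ := rfl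

/-- adding a term to a sequence -/
def seqCons (A : Type) [AddCommGroup A] : A × (ℕ → A) ≃+ (ℕ → A) where
  toFun f := fun n => Nat.casesOn n f.1 f.2
  invFun f := (f 0, fun n => f (n + 1))
  left_inv f := rfl
  right_inv f := by
    funext n
    cases n <;> rfl
  map_add' f g := by
    funext n
    cases n <;> rfl

/-- Pelczynski's decomposition -/
lemma decomposition {A D K1 K2 : Type} [AddCommGroup A] [AddCommGroup D] [AddCommGroup K1]
    [AddCommGroup K2] (h : A ≃+ (ℕ → A)) (h1 : D ≃+ A × K1) (h2 : A ≃+ D × K2) :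
    Nonempty (D ≃+ A) := by
  -- A ≃ A × A
  have e1 : A × A ≃+ A := ((AddEquiv.prodCongr (AddEquiv.refl A) h).trans (seqCons A)).trans h.symm
  -- A × D ≃ D
  have e2 : A × D ≃+ D :=
    (((AddEquiv.prodCongr (AddEquiv.refl A) h1).trans AddEquiv.prodAssoc.symm).trans
      (AddEquiv.prodCongr e1 (AddEquiv.refl K1))).trans h1.symm
  -- A ≃ D^ℕ × K2^ℕ
  have e3 : A ≃+ (ℕ → D) × (ℕ → K2) :=
    (h.trans (AddEquiv.piCongrRight fun _ => h2)).trans (seqProd D K2)
  -- D × A ≃ A
  have e4 : D × A ≃+ A :=
    (((AddEquiv.prodCongr (AddEquiv.refl D) e3).trans AddEquiv.prodAssoc.symm).trans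
      (AddEquiv.prodCongr (seqCons D) (AddEquiv.refl (ℕ → K2)))).trans e3.symm
  exact ⟨(e2.symm.trans AddEquiv.prodComm).trans e4⟩

/-! ### the groups `G I` -/

/-- a surjection from functions with the right kernel -/
lemma G_equiv_of_surj {I : Type} {A : Type} [AddCommGroup A] (Ψ : (I → ℤ) →+ A)
    (hs : Function.Surjective Ψ) (hk : ∀ f, Ψ f = 0 ↔ (Function.support f).Countable) :
    Nonempty (G I ≃+ A) := by
  have h1 : ctblSupp I = Ψ.ker := by
    ext f
    rw [AddMonoidHom.mem_ker, hk]
    rfl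
  exact ⟨(QuotientAddGroup.quotientAddEquivOfEq h1).trans
    (QuotientAddGroup.quotientKerEquivOfSurjective Ψ hs)⟩

lemma G_congr {I J : Type} (σ : I ≃ J) : Nonempty (G I ≃+ G J) := by
  apply G_equiv_of_surj ((QuotientAddGroup.mk' (ctblSupp J)).comp
    ({ toFun := fun f => f ∘ σ.symm, map_zero' := rfl, map_add' := fun _ _ => rfl } :
      (I → ℤ) →+ (J → ℤ)))
  · intro x
    obtain ⟨f, rfl⟩ := QuotientAddGroup.mk_surjective x
    refine ⟨f ∘ σ, ?_⟩
    change (QuotientAddGroup.mk ((f ∘ σ) ∘ σ.symm) : G J) = QuotientAddGroup.mk f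
    congr 1
    funext y
    simp
  · intro f
    change (QuotientAddGroup.mk (f ∘ σ.symm) : G J) = 0 ↔ _
    rw [QuotientAddGroup.eq_zero_iff]
    change (Function.support (f ∘ σ.symm)).Countable ↔ _
    rw [Function.support_comp_eq_preimage]
    constructor
    · intro h
      have := h.preimage σ.injective
      rwa [← Set.preimage_comp, Equiv.symm_comp_self, Set.preimage_id] at this
    · intro h
      exact h.preimage σ.symm.injective

lemma G_seq {I : Type} (σ : I ≃ I × ℕ) : Nonempty (G I ≃+ (ℕ → G I)) := by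
  obtain ⟨e1⟩ := G_congr σ
  obtain ⟨e2⟩ := G_equiv_of_surj (I := I × ℕ) (A := ℕ → G I)
    { toFun := fun f n => QuotientAddGroup.mk (fun x => f (x, n))
      map_zero' := rfl
      map_add' := fun _ _ => rfl } (by
    intro x
    choose f hf using fun n => QuotientAddGroup.mk_surjective (x n)
    refine ⟨fun a => f a.2 a.1, ?_⟩
    funext n
    exact hf n) (by
    intro f
    have h1 : (fun n => (QuotientAddGroup.mk (fun x => f (x, n)) : G I)) = 0 ↔
        ∀ n, (Function.support (fun x => f (x, n))).Countable := by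
      rw [funext_iff]
      apply forall_congr'
      intro n
      rw [Pi.zero_apply, QuotientAddGroup.eq_zero_iff]
      rfl
    change (fun n => (QuotientAddGroup.mk (fun x => f (x, n)) : G I)) = 0 ↔ _
    rw [h1]
    constructor
    · intro h
      have h2 : Function.support f ⊆
          ⋃ n, (fun x => (x, n)) '' (Function.support (fun x => f (x, n))) := by
        rintro ⟨x, n⟩ hx
        rw [Set.mem_iUnion]
        exact ⟨n, x, hx, rfl⟩
      exact (Set.countable_iUnion fun n => (h n).image _).mono h2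
    · intro h n
      have h2 : (Function.support (fun x => f (x, n))) = (fun x => (x, n)) ⁻¹'
          (Function.support f) := rfl
      rw [h2]
      exact h.preimage (fun a b hab => (Prod.mk.inj hab).1))
  exact ⟨e1.trans e2⟩

/-- a nonzero retract of `G I` whose idempotent is given by a row finite matrix is isomorphic to
`G I` -/
theorem retract_iso_of_matrix {I : Type} (hI : #I = aleph 1) {D : Type}
    [AddCommGroup D] (i : D →+ G I) (p : G I →+ D) (hpi : ∀ d, p (i d) = d)
    (hD : ∃ d : D, d ≠ 0) (M : I → (I →₀ ℤ)) (hM : ∀ f : I → ℤ,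
      (i.comp p) (QuotientAddGroup.mk f) = QuotientAddGroup.mk (fun β => pair (M β) f)) :
    Nonempty (D ≃+ G I) := by
  obtain ⟨R, hR, i', p', h'⟩ := exists_retract i p hpi hD M hM
  have hRc : #R = #I := by
    apply le_antisymm (mk_set_le R)
    rw [hI]
    by_contra hcon
    rw [not_le, lt_aleph_one_iff, le_aleph0_iff_set_countable] at hcon
    exact hR hcon
  obtain ⟨σ⟩ := Cardinal.eq.mp hRc
  obtain ⟨eR⟩ := G_congr σ
  have hσ : #I = #(I × ℕ) := by
    rw [mk_prod, lift_id, lift_id, mk_nat, mul_aleph0_eq (by rw [hI]; exact aleph0_le_aleph 1)]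
  obtain ⟨σ'⟩ := Cardinal.eq.mp hσ
  obtain ⟨eN⟩ := G_seq σ'
  exact decomposition eN
    ((retractEquiv i' p' h').trans (AddEquiv.prodCongr eR (AddEquiv.refl _)))
    (retractEquiv i p hpi)

/-- every homomorphism into `G I` from the group of all functions on `I` is given by a row finite
matrix, under Martin's axiom -/
theorem matrix_rep' (hMA : MASigmaCentered) {I : Type} (hI : #I ≤ aleph 1) (e : G I →+ G I) :
    ∃ M : I → (I →₀ ℤ), ∀ f : I → ℤ, e (QuotientAddGroup.mk f) =
      QuotientAddGroup.mk (fun β => pair (M β) f) := by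
  obtain ⟨M, hM'⟩ := matrix_rep hMA hI (e.comp (QuotientAddGroup.mk' (ctblSupp I)))
  refine ⟨M, fun f => ?_⟩
  rw [← mk_rep (e (QuotientAddGroup.mk f)), mk_eq_iff]
  exact hM' f

/-- the projection onto a direct summand -/
lemma exists_proj {X : Type} [AddCommGroup X] (A B : AddSubgroup X) (h : IsCompl A B) :
    ∃ p : X →+ A, (∀ a : A, p a = a) ∧ ∀ x, x - p x ∈ B := by
  have h' : IsCompl (AddSubgroup.toIntSubmodule A) (AddSubgroup.toIntSubmodule B) :=
    (AddSubgroup.toIntSubmodule (M := X)).isCompl h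
  set q := Submodule.projectionOnto _ _ h' with hq
  refine ⟨{ toFun := fun x => ⟨(q x : X), (q x).2⟩, map_zero' := ?_, map_add' := ?_ }, ?_, ?_⟩
  · ext; simp
  · intro x y; ext; simp
  · intro a
    have h1 := Submodule.projectionOnto_apply_left h' ⟨(a : X), a.2⟩
    ext
    exact congrArg Subtype.val h1
  · intro x
    have h1 : q (x - (q x : X)) = 0 := by
      rw [map_sub, hq, Submodule.projectionOnto_apply_left h', sub_self]
    have h2 : x - (q x : X) ∈ LinearMap.ker q := h1
    rw [hq, Submodule.ker_projectionOnto] at h2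
    exact h2

lemma closure_eq_ctblSupp (I : Type) :
    AddSubgroup.closure {f : I → ℤ | (Function.support f).Countable} = ctblSupp I :=
  AddSubgroup.closure_eq (ctblSupp I)

/-- summands with a row finite projection -/
theorem summand_of_matrix (I : Type) (hI : #I = aleph 1) (A B : AddSubgroup (G I))
    (hAB : IsCompl A B) (hA : A ≠ ⊥) (M : I → (I →₀ ℤ))
    (hM : ∀ f : I → ℤ, (QuotientAddGroup.mk (fun β => (M β).sum fun x n => n * f x) : G I) ∈ A ∧
      (QuotientAddGroup.mk f - QuotientAddGroup.mk (fun β => (M β).sum fun x n => n * f x) : G I)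
        ∈ B) : Nonempty (A ≃+ G I) := by
  obtain ⟨p, hp1, hp2⟩ := exists_proj A B hAB
  have hD : ∃ d : A, d ≠ 0 := AddSubgroup.ne_bot_iff_exists_ne_zero.mp hA
  apply retract_iso_of_matrix hI A.subtype p (fun d => hp1 d) hD M
  intro f
  obtain ⟨h1, h2⟩ := hM f
  change ((p (QuotientAddGroup.mk f) : A) : G I) = _
  set m : G I := QuotientAddGroup.mk (fun β => pair (M β) f) with hm
  have h3 : (p (QuotientAddGroup.mk f) : G I) - m ∈ A := A.sub_mem (SetLike.coe_mem _) h1
  have h4 : (p (QuotientAddGroup.mk f) : G I) - m ∈ B := by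
    have := B.sub_mem h2 (hp2 (QuotientAddGroup.mk f))
    have h5 : (p (QuotientAddGroup.mk f) : G I) - m = ((QuotientAddGroup.mk f : G I) - m) -
        ((QuotientAddGroup.mk f : G I) - (p (QuotientAddGroup.mk f) : G I)) := by
      abel
    rw [h5]
    exact this
  have h6 : (p (QuotientAddGroup.mk f) : G I) - m ∈ A ⊓ B := ⟨h3, h4⟩
  rw [hAB.inf_eq_bot, AddSubgroup.mem_bot, sub_eq_zero] at h6
  exact h6

/-- all nonzero summands, under Martin's axiom -/
theorem summand_of_MA (hMA : MASigmaCentered) (I : Type) (hI : #I = aleph 1)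
    (A B : AddSubgroup (G I)) (hAB : IsCompl A B) (hA : A ≠ ⊥) : Nonempty (A ≃+ G I) := by
  obtain ⟨p, hp1, hp2⟩ := exists_proj A B hAB
  have hD : ∃ d : A, d ≠ 0 := AddSubgroup.ne_bot_iff_exists_ne_zero.mp hA
  obtain ⟨M, hM⟩ := matrix_rep' hMA hI.le (A.subtype.comp p)
  exact retract_iso_of_matrix hI A.subtype p (fun d => hp1 d) hD M hM

end Pool.Agent.W_MP_54b1e5_al
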